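import Pool.Agent.Helper19.HN.St
import Pool.Agent.Helper19.HN.WIN
import Pool.Agent.Helper71.HN.COH

/-! # HN, module REG: almost all elements of an atom are regular in HOD -/

namespace Pool.Agent.Helper37.HN.REG

open Ordinal Cardinal ZFSet Order Pool.Agent.Helper73.HODC Pool.Agent.Helper73.HM
open Pool.Agent.Helper73.HE Pool.Agent.Helper73.HU Pool.Agent.Helper19.HN
open Pool.Agent.Helper19.HN.INE Pool.Agent.Helper19.HN.WIN

theorem dp_mem_sc (lam : Ordinal.{0}) :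
    DP (fun v => (v 1).rank ∈ st (sc lam (v 0).rank)) := by
  refine (DP.ex (Q := fun x v => x = sc lam (v 0).rank ∧ (v 1).rank ∈ st x) ?_).congr
    fun v => ?_
  · refine DP.and ?_ (DP.st 2 0)
    exact (dp_sc lam).rename (fun n => n)
  · constructor
    · intro h
      exact ⟨_, rfl, h⟩
    · rintro ⟨_, rfl, h⟩
      exact h

theorem reg_of (coh : StCOH) : StREG := by
  intro c A hc hA
  have hτ : ℵ₀ < c.ord.cof := hA.cof
  have hc' : ℵ₀ < c := by
    rw [hc.cof_ord] at hτ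
    exact hτ
  obtain ⟨X, hX, hAE⟩ := coh c A (fun i d => d ∈ st (sc c.ord i)) hc hA (dp_mem_sc c.ord)
  by_contra hcon
  rw [AE_iff, not_not] at hcon
  have hS := stat_AE hτ hcon (fun a ha => ha.1) ((AE_lim hτ A).and hτ hAE)
  have hsm : ∀ g ∈ {a | a ∈ {a | a ∈ A ∧ ¬ HODReg a} ∧ (IsSuccLimit a ∧
      ∀ d < a, d ∈ st (sc c.ord a) ↔ d ∈ st X)}, g < c.ord →
      SmallCof g g (sc c.ord g) := by
    rintro g ⟨⟨-, hg1⟩, hg2, -⟩ hgc
    exact exists_sc hg2 hgc hg1
  refine otp_contra hc hc' (B := st X) hS ?_ ?_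
  · rintro g hg hgc a ha
    obtain ⟨d, hd, had, hdg⟩ := (hsm g hg hgc).2.1 a ha
    exact ⟨d, (hg.2.2 d hdg).1 hd, had, hdg⟩
  · rintro g hg hgc
    have h3 : {a | a ∈ st X ∧ a < g} = st (sc c.ord g) := by
      ext a
      constructor
      · rintro ⟨h1, h2⟩
        exact (hg.2.2 a h2).2 h1
      · intro h1
        have h2 := (hsm g hg hgc).1 a h1
        exact ⟨(hg.2.2 a h2).1 h1, h2⟩
    rw [h3]
    exact (hsm g hg hgc).2.2

theorem reg : StREG := reg_of Pool.Agent.Helper71.HN.COH.coh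

end Pool.Agent.Helper37.HN.REG
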